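import Pool.Agent.H18.SAP.Stmts

set_option autoImplicit false

namespace SAP
open Finset

namespace CO5

theorem step (n : ℕ) : primorial (n + 1) = if (n + 1).Prime then (n + 1) * primorial n else primorial n := by
  unfold primorial
  rw [Finset.range_add_one (n := n + 1), Finset.filter_insert]
  split_ifs with h
  · rw [Finset.prod_insert]
    simp
  · rfl

theorem cop (n p : ℕ) (hp : p.Prime) (h : n < p) : Nat.Coprime p (primorial n) := by
  unfold primorial
  apply Nat.Coprime.prod_right
  intro q hq
  simp only [Finset.mem_filter, Finset.mem_range] at hq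
  rw [Nat.coprime_primes hp hq.2]
  omega

theorem two (k : ℕ) (hk : 1 ≤ k) :
    (primorial (2 * k + 1)) ^ 2 ≤ 4 * (2 * k + 1) * (primorial (2 * k + 1)).totient ^ 2 := by
  induction k, hk using Nat.le_induction with
  | base =>
    have h : primorial 3 = 6 := by decide
    have h2 : Nat.totient 6 = 2 := by decide
    norm_num [h, h2]
  | succ k hk ih =>
    have h1 : primorial (2 * (k + 1) + 1) = if (2 * k + 3).Prime then
        (2 * k + 3) * primorial (2 * k + 1) else primorial (2 * k + 1) := by
      have e1 := step (2 * k + 2)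
      have e2 := step (2 * k + 1)
      have h3 : ¬ (2 * k + 1 + 1).Prime := by
        intro h
        have := h.eq_one_or_self_of_dvd 2 ⟨k + 1, by ring⟩
        omega
      rw [if_neg h3] at e2
      have e3 : 2 * (k + 1) + 1 = 2 * k + 2 + 1 := by ring
      rw [e3, e1]
      have e4 : 2 * k + 2 = 2 * k + 1 + 1 := by ring
      have e5 : 2 * k + 2 + 1 = 2 * k + 3 := by ring
      rw [e5, show primorial (2 * k + 2) = primorial (2 * k + 1) from e2]
    rw [h1]
    split_ifs with hp
    · have hc := cop (2 * k + 1) (2 * k + 3) hp (by omega)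
      rw [Nat.totient_mul hc, Nat.totient_prime hp]
      have e6 : 2 * k + 3 - 1 = 2 * k + 2 := by omega
      rw [e6]
      set P := primorial (2 * k + 1)
      set T := P.totient
      have h7 : (2 * k + 1) * (2 * k + 3) ≤ (2 * k + 2) ^ 2 := by nlinarith
      calc ((2 * k + 3) * P) ^ 2 = (2 * k + 3) ^ 2 * P ^ 2 := by ring
        _ ≤ (2 * k + 3) ^ 2 * (4 * (2 * k + 1) * T ^ 2) := Nat.mul_le_mul_left _ ih
        _ = 4 * (2 * k + 3) * T ^ 2 * ((2 * k + 1) * (2 * k + 3)) := by ring
        _ ≤ 4 * (2 * k + 3) * T ^ 2 * ((2 * k + 2) ^ 2) := Nat.mul_le_mul_left _ h7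
        _ = 4 * (2 * (k + 1) + 1) * ((2 * k + 2) * T) ^ 2 := by ring
    · calc _ ≤ _ := ih
        _ ≤ _ := by
          apply Nat.mul_le_mul_right
          omega

end CO5

theorem co5 : S_CO5 := by
  intro l hl h5
  have hodd : ¬ 2 ∣ l := by
    intro h
    have := hl.eq_one_or_self_of_dvd 2 h
    omega
  obtain ⟨k, hk⟩ : ∃ k, l = 2 * k + 1 := ⟨l / 2, by omega⟩
  have h := CO5.two k (by omega)
  rw [← hk] at h
  have hT : 0 < (primorial l).totient := Nat.totient_pos.mpr (primorial_pos l)
  have h2 : (primorial l) ^ 2 < (l * (primorial l).totient) ^ 2 := by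
    calc _ ≤ _ := h
      _ < l * l * (primorial l).totient ^ 2 := by
        apply Nat.mul_lt_mul_of_pos_right _ (by positivity)
        nlinarith
      _ = _ := by ring
  exact lt_of_pow_lt_pow_left₀ 2 (Nat.zero_le _) h2

end SAP
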